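import Pool.Agent.Lib.MP_1c0d65_gt.Main

namespace Pool.Agent.Results.MP_1c0d65_gt.CurveSystems

open Pool.Agent.Lib.MP_1c0d65_gt

/-- V with the form B stands for the real second cohomology of the rational blow up, L for the
integral classes, K for the canonical class, w for the symplectic class, Curve for the irreducible
pseudoholomorphic curves with class c and point set pts, e i j for the spheres of the chains. -/
theorem result {V : Type} [AddCommGroup V] [Module ℝ V] [FiniteDimensional ℝ V]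
    (B : LinearMap.BilinForm ℝ V) (symm : ∀ x y, B x y = B y x)
    (hodge : ∀ x y, 0 < B x x → B x y = 0 → y ≠ 0 → B y y < 0)
    (L : AddSubgroup V) (hL : (L : Set V).Countable)
    (int : ∀ x ∈ L, ∀ y ∈ L, ∃ m : ℤ, B x y = m) (K w : V) (hK : K ∈ L) (hw : 0 < B w w)
    {Curve Pt : Type} (c : Curve → V) (pts : Curve → Set Pt)
    (hc : ∀ C, c C ∈ L) (area : ∀ C, 0 < B w (c C))
    (adj : ∀ C, ∃ g : ℕ, B (c C) (c C) + B K (c C) = 2 * g - 2)
    (pos : ∀ C C', C ≠ C' → ∀ F : Finset Pt, (∀ x ∈ F, x ∈ pts C ∧ x ∈ pts C') →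
      (F.card : ℝ) ≤ B (c C) (c C'))
    (thin : ∀ S : Set Curve, S.Countable → ∀ F : Finset Pt, ∃ x ∉ F, ∀ C ∈ S, x ∉ pts C)
    (ex : ∀ A ∈ L, ∀ F : Finset Pt, 2 * (F.card : ℝ) ≤ B A A - B K A →
      (∃ a : Curve →₀ ℕ, (a.sum fun C m => (m : ℝ) • c C) = A ∧
        ∀ x ∈ F, ∃ C ∈ a.support, x ∈ pts C) ∨
      ∃ a : Curve →₀ ℕ, (a.sum fun C m => (m : ℝ) • c C) = K - A)
    (n : ℕ) (l : Fin n → ℕ) (b : Fin n → ℕ → ℤ) (e : Fin n → ℕ → Curve)
    (wahl : ∀ i, IsWahl (l i) (b i))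
    (chain : ∀ i i' j j', j < l i → j' < l i' → B (c (e i j)) (c (e i' j')) =
      if i = i' ∧ j = j' then -(b i j : ℝ) else if i = i' ∧ (j + 1 = j' ∨ j' + 1 = j) then 1 else 0)
    (sphere : ∀ i, ∀ j < l i, B K (c (e i j)) = b i j - 2) (κ : ℝ) (hκ : 0 < κ)
    (mono : ∀ x, (∀ i, ∀ j < l i, B x (c (e i j)) = 0) → -B K x = κ * B w x) :
    n + ∑ i, l i ≤ Module.finrank ℝ V + 2 :=
  main symm hodge hL int hK hw hc area adj pos thin ex wahl chain sphere hκ mono

end Pool.Agent.Results.MP_1c0d65_gt.CurveSystems
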