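import Pool.Agent.Lib.MP_1c0d65_gt.PW.AsmC

open scoped Manifold ContDiff
open Set MeasureTheory Pool.Agent.Lib.MP_1c0d65_gt.PW

namespace Pool.Agent.Results.MP_1c0d65_gt.Pinwheels

theorem result (X : Type) [TopologicalSpace X] [ChartedSpace E X] [IsManifold 𝓘(ℝ, E) ∞ X]
    [T2Space X] [CompactSpace X] [ConnectedSpace X] [MeasurableSpace X] [BorelSpace X]
    (om : X → Bil E ℝ) (J : X → E →L[ℝ] E) (μ : Measure X) (κ : ℝ)
    (hom : Closed om) (hJ : Tame univ om J) (hc : ∀ x v w, om x (J x v) (J x w) = om x v w)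
    (hμ : IsVol om μ) (hκ : 0 < κ) (mono : IsChern univ J ((2 * Real.pi * κ) • om))
    (k : ℕ) (e : Fin (k + 1) → X → Bil E ℝ) (he : ∀ i, Closed (e i))
    (span : ∀ α, Closed α → ∃ (c : Fin (k + 1) → ℝ) (a : X → E →L[ℝ] ℝ),
      IsD univ a (α - ∑ i, c i • e i))
    (form : ∀ i j, pair om μ (e i) (e j) = if i = j then if i = 0 then 1 else -1 else 0)
    (r : ℕ) (S : Fin r → ℂ → X) (hS : ∀ i, EmbSphere J (S i))
    (c1 : ∀ i, κ * per (S i) om = 2 ∨ κ * per (S i) om = 3) (deg : r + 3 ≤ ∑ i, κ * per (S i) om)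
    (dual : ∀ α, Closed α → ∑ i, per (S i) α = κ * pair om μ om α)
    (n : ℕ) (L : Fin n → Set X) (hL : ∀ i, Pinwheel om (L i))
    (disj : ∀ i j, i ≠ j → Disjoint (L i) (L j)) : n ≤ (k + 1) + 2 :=
  pinwheelsC X om J μ κ hom hJ hc hμ hκ mono k e he span form r S hS c1 deg dual n L hL disj

end Pool.Agent.Results.MP_1c0d65_gt.Pinwheels
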