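import Pool.Agent.Lib.MP_1c0d65_gt.Q.Odd

open scoped Manifold ContDiff TensorProduct AddMonoidAlgebra
open Set MeasureTheory Pool.Agent.Lib.MP_1c0d65_gt.PW

namespace Pool.Agent.Results.MP_1c0d65_gt.Quantum

theorem result (X : Type) [TopologicalSpace X] [ChartedSpace E X] [IsManifold 𝓘(ℝ, E) ∞ X]
    [T2Space X] [CompactSpace X] [ConnectedSpace X] [MeasurableSpace X] [BorelSpace X]
    (om : X → Bil E ℝ) (J : X → E →L[ℝ] E) (μ : Measure X) (κ : ℝ)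
    (hom : Closed om) (hJ : Tame univ om J) (hc : ∀ x v w, om x (J x v) (J x w) = om x v w)
    (hμ : IsVol om μ) (hκ : 0 < κ) (mono : IsChern univ J ((2 * Real.pi * κ) • om))
    (b : ℕ) (e : Fin b → X → Bil E ℝ) (he : ∀ i, Closed (e i))
    (span : ∀ α, Closed α → ∃ (c : Fin b → ℝ) (η : X → E →L[ℝ] ℝ),
      IsD univ η (α - ∑ i, c i • e i))
    (g : Matrix (Fin b) (Fin b) ℤ) (hg : g.det ≠ 0) (form : ∀ i j, pair om μ (e i) (e j) = g i j)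
    (z : Fin b → ℤ) (hz : ∀ i, κ * pair om μ om (e i) = z i)
    (a : ℕ) (f : Fin a → X → E →L[ℝ] ℝ) (t : Fin a → Fin a → Fin b → ℤ) (hf : IsH1 e f t)
    (P : Fin 3 → X) (N : ℕ → (Fin b → ℤ) →₀ ℕ) (hN : Counts J (fun u => κ * per u om) e g P N)
    (R : Type) [Ring R] [Algebra ℤ[Fin b → ℤ] R]
    (hR : IsQF g N (fun A => (.single A 1 : ℤ[Fin b → ℤ])) t R)
    (K : Type) [Field K] [Algebra ℤ[Fin b → ℤ] K]
    (hK : ∀ A, z ⬝ᵥ A = 0 → algebraMap ℤ[Fin b → ℤ] K (.single A 1) = 1)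
    (m : ℕ) (F : Fin m → Type) [∀ i, Field (F i)] (ss : K ⊗[ℤ[Fin b → ℤ]] R ≃+* ∀ i, F i)
    (n : ℕ) (L : Fin n → Set X) (hL : ∀ i, Pinwheel om (L i))
    (disj : ∀ i j, i ≠ j → Disjoint (L i) (L j)) :
    n ≤ Module.finrank K (K ⊗[ℤ[Fin b → ℤ]] R) :=
  quantum_full X om J μ κ hom hJ hc hμ hκ mono b e he span g hg form z hz a f t hf P N hN R hR
    K hK m F ss n L hL disj

end Pool.Agent.Results.MP_1c0d65_gt.Quantum
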